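import Pool.Agent.LHam.G4Fin

set_option autoImplicit false

/-!
# MP_0e8467_pr: the sharp threshold for linear Hamiltonian cycles

For every `r ≥ 3` the function `p^deg_r(n) = (r - 1)! log n / n ^ (r - 1)` is a sharp threshold for the
property that the binomial random `r`-graph `G^(r)(n, p)` contains a linear Hamiltonian cycle, `n`
ranging over the multiples of `r - 1`. The sequence `p` is arbitrary.
-/

namespace Pool.Agent.Results.MP_0e8467_pr.SharpThreshold

open Filter Pool.Agent.LHam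

/-- **Main theorem.** Let `r ≥ 3`, `ε > 0` and `p n ∈ [0, 1]`. If `p n ≥ (1 + ε) p^deg_r(n)` for all
large multiples `n = (r - 1) k` of `r - 1`, the probability that `G^(r)(n, p n)` contains a linear
Hamiltonian cycle tends to `1`, and if `p n ≤ (1 - ε) p^deg_r(n)` for all large multiples of `r - 1`,
it tends to `0`. -/
theorem result (r : ℕ) (hr : 3 ≤ r) (ε : ℝ) (hε : 0 < ε) (p : ℕ → ℝ)
    (hp : ∀ n, 0 ≤ p n ∧ p n ≤ 1) :
    ((∀ᶠ k : ℕ in atTop, (1 + ε) * pdeg r ((r - 1) * k) ≤ p ((r - 1) * k)) →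
      Tendsto (fun k : ℕ => prob r ((r - 1) * k) (p ((r - 1) * k)) (HasLHC r ((r - 1) * k)))
        atTop (nhds 1)) ∧
    ((∀ᶠ k : ℕ in atTop, p ((r - 1) * k) ≤ (1 - ε) * pdeg r ((r - 1) * k)) →
      Tendsto (fun k : ℕ => prob r ((r - 1) * k) (p ((r - 1) * k)) (HasLHC r ((r - 1) * k)))
        atTop (nhds 0)) := by
  have hk : ∀ n₀ : ℕ, ∀ᶠ k : ℕ in atTop, n₀ ≤ (r - 1) * k := by
    intro n₀
    filter_upwards [eventually_ge_atTop n₀] with k hk
    exact hk.trans (Nat.le_mul_of_pos_left k (by omega))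
  constructor
  · intro h
    rw [Metric.tendsto_atTop']
    intro ζ hζ
    obtain ⟨n₀, hn₀⟩ := upper_half r hr ε (ζ / 2) hε (by positivity)
    obtain ⟨N, hN⟩ := eventually_atTop.1 ((hk n₀).and h)
    refine ⟨N, fun k hkN => ?_⟩
    obtain ⟨h1, h2⟩ := hN k hkN.le
    have h3 := hn₀ _ h1 (Dvd.intro _ rfl) _ (hp _).2 h2
    have h4 := prob_le_one r ((r - 1) * k) (p ((r - 1) * k)) (hp ((r - 1) * k)).1
      (hp ((r - 1) * k)).2 (HasLHC r ((r - 1) * k))
    rw [Real.dist_eq, abs_lt]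
    constructor <;> linarith
  · intro h
    rw [Metric.tendsto_atTop']
    intro ζ hζ
    obtain ⟨n₀, hn₀⟩ := lower_half r hr ε (ζ / 2) hε (by positivity)
    obtain ⟨N, hN⟩ := eventually_atTop.1 ((hk n₀).and h)
    refine ⟨N, fun k hkN => ?_⟩
    obtain ⟨h1, h2⟩ := hN k hkN.le
    have h3 := hn₀ _ h1 _ (hp _).1 h2
    have h4 := prob_nonneg r ((r - 1) * k) (p ((r - 1) * k)) (hp ((r - 1) * k)).1
      (hp ((r - 1) * k)).2 (HasLHC r ((r - 1) * k))
    rw [Real.dist_eq, abs_lt]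
    constructor <;> linarith

end Pool.Agent.Results.MP_0e8467_pr.SharpThreshold
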